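import Pool.Agent.Lib.P325av.Defs

/-!
The constraints of the standard semidefinite relaxation for a program in arbitrary variables.
-/

open scoped BigOperators

namespace Pool.Agent.Lib.P325pr

/-- The standard semidefinite constraints for a relaxation with variables in `Y`, in which the
labeling `z` is the point `pt z`: a point `y` satisfies them if every affine function `v y + v0`
that is equal at `pt z`, for every labeling `z`, to the square of `c + ∑ p, h p (z p)` (a sum of
functions of single labels) is nonnegative at `y`. -/
def StandardSDP {N : ℕ} {Ω Y : Type} [AddCommGroup Y] [Module ℝ Y]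
    (pt : (Fin N ⊕ Fin N → Ω) → Y) : Set Y :=
  {y | ∀ (v : Y →ₗ[ℝ] ℝ) (v0 c : ℝ) (h : Fin N ⊕ Fin N → Ω → ℝ),
    (∀ z, v (pt z) + v0 = (c + ∑ p, h p (z p)) ^ 2) → 0 ≤ v y + v0}

end Pool.Agent.Lib.P325pr
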