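import Pool.Agent.Lib.P325P.EsSat
import Pool.Agent.Lib.P325av.Perm
import Pool.Agent.Lib.P325pr.Defs

/-!
Copies of a game with arbitrary constraint permutations: the facts of `P325av.Perm`, `P325P.EsSat`
for an arbitrary set of labels.
-/

open scoped BigOperators

namespace Pool.Agent.Lib.P325pr

open Pool.Agent.Lib.P325x (Game)
open Pool.Agent.Lib.P325P (es es_sum es_zero_of_dep)
open Pool.Agent.Lib.P325av (relabel exists_perm dbl)

/-- The copy of the game given by the choice `z` of a copy of every vertex. -/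
def copyG {n t N : ℕ} {Ω ι : Type} (cL cR : Fin n × Fin t → Fin N) (src dst : ι → Fin n)
    (π : ι → Equiv.Perm Ω) (z : Fin n ⊕ Fin n → Fin t) : Game (Fin N) (Fin N) Ω ι :=
  Game.mk (fun e => cL (src e, z (Sum.inl (src e)))) (fun e => cR (dst e, z (Sum.inr (dst e)))) π

/-- All copies of the game are relabelings of one of them. -/
theorem copy_relabel {n t N : ℕ} {Ω ι : Type} (cp : Fin n × Fin t → Fin N)
    (hcp : Function.Injective cp) (src dst : ι → Fin n) (π : ι → Equiv.Perm Ω)
    (z z' : Fin n ⊕ Fin n → Fin t) :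
    ∃ h : Equiv.Perm (Fin N) × Equiv.Perm (Fin N), ∀ g : Equiv.Perm (Fin N) × Equiv.Perm (Fin N),
      copyG (fun p => g.1 (cp p)) (fun p => g.2 (cp p)) src dst π z' =
        relabel (copyG cp cp src dst π z) (g * h) := by
  obtain ⟨α, hα⟩ := exists_perm (fun i : Fin n => cp (i, z (Sum.inl i)))
    (fun i => cp (i, z' (Sum.inl i))) (fun i j h => (Prod.ext_iff.1 (hcp h)).1)
    (fun i j h => (Prod.ext_iff.1 (hcp h)).1)
  obtain ⟨β, hβ⟩ := exists_perm (fun i : Fin n => cp (i, z (Sum.inr i)))
    (fun i => cp (i, z' (Sum.inr i))) (fun i j h => (Prod.ext_iff.1 (hcp h)).1)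
    (fun i j h => (Prod.ext_iff.1 (hcp h)).1)
  refine ⟨(α, β), fun g => ?_⟩
  unfold copyG relabel
  congr 1
  · funext e
    show g.1 (cp (src e, z' (Sum.inl (src e)))) = g.1 (α (cp (src e, z (Sum.inl (src e)))))
    rw [hα (src e)]
  · funext e
    show g.2 (cp (dst e, z' (Sum.inr (dst e)))) = g.2 (β (cp (dst e, z (Sum.inr (dst e)))))
    rw [hβ (dst e)]

/-- If for every relabeling at most a fraction `ρ` of the copies has the property `Q`, then at most
a fraction `ρ` of the relabelings of one copy has the property. -/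
theorem perm_avg {n t N : ℕ} {Ω ι : Type} (cp : Fin n × Fin t → Fin N)
    (hcp : Function.Injective cp) (src dst : ι → Fin n) (π : ι → Equiv.Perm Ω)
    (z0 : Fin n ⊕ Fin n → Fin t) (Q : Game (Fin N) (Fin N) Ω ι → Prop) (ρ : ℝ)
    (h : ∀ g : Equiv.Perm (Fin N) × Equiv.Perm (Fin N),
      (Nat.card {z : Fin n ⊕ Fin n → Fin t //
        Q (copyG (fun p => g.1 (cp p)) (fun p => g.2 (cp p)) src dst π z)} : ℝ) ≤
        ρ * Fintype.card (Fin n ⊕ Fin n → Fin t)) :
    (Nat.card {g : Equiv.Perm (Fin N) × Equiv.Perm (Fin N) //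
      Q (relabel (copyG cp cp src dst π z0) g)} : ℝ) ≤ ρ * (N.factorial : ℝ) ^ 2 := by
  have hGc : (Fintype.card (Equiv.Perm (Fin N) × Equiv.Perm (Fin N)) : ℝ) =
      (N.factorial : ℝ) ^ 2 := by
    rw [Fintype.card_prod, Fintype.card_perm, Fintype.card_fin]
    push_cast
    ring
  have : Nonempty (Fin n ⊕ Fin n → Fin t) := ⟨z0⟩
  rw [← hGc]
  refine dbl (fun g z => Q (copyG (fun p => g.1 (cp p)) (fun p => g.2 (cp p)) src dst π z))
    (fun g => Q (relabel (copyG cp cp src dst π z0) g)) ?_ ρ h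
  intro z
  obtain ⟨hh, h1⟩ := copy_relabel cp hcp src dst π z0 z
  exact ⟨hh, fun g => by rw [h1 g]⟩

theorem copy_value {n t N : ℕ} {Ω : Type} [Finite Ω] (cp : Fin n × Fin t → Fin N)
    {ι : Type} [Fintype ι] (src dst : ι → Fin n) (π : ι → Equiv.Perm Ω) (δ : ℝ)
    (hval : (Game.mk src dst π).value ≤ δ) (z : Fin n ⊕ Fin n → Fin t) [Nonempty Ω] :
    (copyG cp cp src dst π z).value ≤ δ := by
  have hsat : ∀ (f g : Fin N → Ω),
      (copyG cp cp src dst π z).satFrac f g =
      (Game.mk src dst π).satFrac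
        (fun i => f (cp (i, z (Sum.inl i)))) (fun i => g (cp (i, z (Sum.inr i)))) :=
    fun f g => rfl
  refine le_trans ?_ hval
  unfold Game.value
  apply ciSup_le
  intro p
  rw [hsat]
  exact le_ciSup (f := fun q : (Fin n → Ω) × (Fin n → Ω) =>
    (Game.mk src dst π).satFrac q.1 q.2)
    (Set.finite_range _).bddAbove
    ((fun i => p.1 (cp (i, z (Sum.inl i)))), (fun i => p.2 (cp (i, z (Sum.inr i)))))

theorem es_sat {n : ℕ} {Ω : Type} [Fintype Ω] [Nonempty Ω] {ι : Type} [Fintype ι]
    (src dst : ι → Fin n) (π : ι → Equiv.Perm Ω) (s : ℝ) (T : Finset (Fin n ⊕ Fin n))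
    (hT : 2 < T.card) (y : Fin n ⊕ Fin n → Ω) :
    es T (fun z => s - (Game.mk src dst π).satFrac
      (fun i => z (Sum.inl i)) (fun i => z (Sum.inr i))) y = 0 := by
  classical
  let c : Option ι → ℝ := fun o => o.elim s (fun _ => - (1 / (Fintype.card ι : ℝ)))
  let f : Option ι → (Fin n ⊕ Fin n → Ω) → ℝ := fun o =>
    o.elim (fun _ => 1)
      (fun e z => if π e (z (Sum.inl (src e))) = z (Sum.inr (dst e)) then 1 else 0)
  have h1 : (fun z : Fin n ⊕ Fin n → Ω =>
      s - (Game.mk src dst π).satFrac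
      (fun i => z (Sum.inl i)) (fun i => z (Sum.inr i))) =
      fun z => ∑ o ∈ (Finset.univ : Finset (Option ι)), c o * f o z := by
    funext z
    rw [Fintype.sum_option]
    simp only [c, f, Option.elim]
    have h3 : (Game.mk src dst π).satFrac
        (fun i => z (Sum.inl i)) (fun i => z (Sum.inr i)) =
        (∑ e, (if π e (z (Sum.inl (src e))) = z (Sum.inr (dst e)) then (1 : ℝ) else 0)) /
          (Fintype.card ι : ℝ) := by
      unfold Game.satFrac
      rw [Finset.sum_boole]
    rw [h3, ← Finset.mul_sum]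
    ring
  rw [h1, es_sum]
  apply Finset.sum_eq_zero
  intro o _
  have h2 : es T (f o) y = 0 := by
    rcases o with _ | e
    · apply es_zero_of_dep (J := ∅)
      · intro u v _
        rfl
      · intro h
        rw [Finset.subset_empty.1 h] at hT
        simp at hT
    · apply es_zero_of_dep (J := {Sum.inl (src e), Sum.inr (dst e)})
      · intro u v huv
        have e1 : u (Sum.inl (src e)) = v (Sum.inl (src e)) := huv _ (by simp)
        have e2 : u (Sum.inr (dst e)) = v (Sum.inr (dst e)) := huv _ (by simp)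
        simp only [f, Option.elim, e1, e2]
      · intro h
        have h3 := Finset.card_le_card h
        have h4 := Finset.card_le_two (a := (Sum.inl (src e) : Fin n ⊕ Fin n))
          (b := Sum.inr (dst e))
        omega
  rw [h2, mul_zero]

end Pool.Agent.Lib.P325pr
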