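import Pool.Agent.Lib.P325pg.Dual
import Pool.Agent.Lib.P325pr.Games

/-!
From relaxations with finitely many nonnegative functions and all squares of functions of degree one
to decompositions of the lifted objective.
-/

open scoped BigOperators

namespace Pool.Agent.Lib.P325pr

open Pool.Agent.Lib.P325x (Game)
open Pool.Agent.Lib.P325pg (sos sos_comp dual)

/-- The relaxation by the nonnegative functions `g j` and the squares of functions of degree one
shows that the value of the game is at most `s`. -/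
def CertW {N R : ℕ} {Ω : Type} [Fintype Ω] (g : Fin R → (Fin N ⊕ Fin N → Ω) → ℝ) (s : ℝ)
    {ι : Type} [Fintype ι] (I : Game (Fin N) (Fin N) (Ω) ι) : Prop :=
  ∀ γ : (Fin N ⊕ Fin N → Ω) → ℝ, ∑ x, γ x = 1 → (∀ j, 0 ≤ ∑ x, γ x * g j x) →
    (∀ (c : ℝ) (h : Fin N ⊕ Fin N → Ω → ℝ), 0 ≤ ∑ x, γ x * (c + ∑ p, h p (x p)) ^ 2) →
    ∑ x, γ x * I.satFrac (fun i => x (Sum.inl i)) (fun i => x (Sum.inr i)) ≤ s

theorem gameS {n t N : ℕ} {Ω : Type} [Fintype Ω] [DecidableEq Ω] [Nonempty Ω] (cL cR : Fin n × Fin t → Fin N)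
    (hcL : Function.Injective cL) (hcR : Function.Injective cR) (s : ℝ)
    {ι : Type} [Fintype ι] (src dst : ι → Fin n) (π : ι → Equiv.Perm Ω) {R : ℕ}
    (g : Fin R → (Fin N ⊕ Fin N → Ω) → ℝ) (hg : ∀ j x, 0 ≤ g j x) :
    ∃ (I : Type) (_ : Fintype I) (u : I → (Fin n ⊕ Fin n → Fin t) → ℝ)
      (v : I → ((Fin n ⊕ Fin n) × Fin t → Ω) → ℝ)
      (Q : (Fin n ⊕ Fin n → Fin t) → ((Fin n ⊕ Fin n) × Fin t → Ω) → ℝ),
      Fintype.card I = R + 1 ∧ (∀ j z, 0 ≤ u j z) ∧ (∀ j x, 0 ≤ v j x) ∧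
      (∀ j z, ¬ CertW g s (copyG cL cR src dst π z) → u j z = 0) ∧
      (∀ z, Q z ∈ sos ((Fin n ⊕ Fin n) × Fin t) (Ω)) ∧
      ∀ z, CertW g s (copyG cL cR src dst π z) →
        ∀ x : (Fin n ⊕ Fin n) × Fin t → Ω,
        s - (Game.mk src dst π).satFrac
          (fun i => x (Sum.inl i, z (Sum.inl i))) (fun i => x (Sum.inr i, z (Sum.inr i))) =
          ∑ j, u j z * v j x + Q z x := by
  classical
  let em : (Fin n ⊕ Fin n) × Fin t → Fin N ⊕ Fin N := fun p =>
    Sum.elim (fun i => Sum.inl (cL (i, p.2))) (fun i => Sum.inr (cR (i, p.2))) p.1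
  have hem : Function.Injective em := by
    rintro ⟨i | i, a⟩ ⟨i' | i', a'⟩ h
    · have h1 := hcL (Sum.inl_injective h)
      simp only [Prod.mk.injEq] at h1 ⊢
      exact ⟨by rw [h1.1], h1.2⟩
    · exact absurd h (by simp [em])
    · exact absurd h (by simp [em])
    · have h1 := hcR (Sum.inr_injective h)
      simp only [Prod.mk.injEq] at h1 ⊢
      exact ⟨by rw [h1.1], h1.2⟩
  let sr : Fin N ⊕ Fin N → Option ((Fin n ⊕ Fin n) × Fin t) := fun p =>
    if h : ∃ p', em p' = p then some h.choose else none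
  have hsr : ∀ p', sr (em p') = some p' := by
    intro p'
    have h : ∃ p'', em p'' = em p' := ⟨p', rfl⟩
    show (if h : ∃ p'', em p'' = em p' then some h.choose else none) = some p'
    rw [dif_pos h, hem h.choose_spec]
  let ext : ((Fin n ⊕ Fin n) × Fin t → Ω) → (Fin N ⊕ Fin N → Ω) := fun x p =>
    (sr p).elim (Classical.arbitrary Ω) x
  have hextL : ∀ x i a, ext x (Sum.inl (cL (i, a))) = x (Sum.inl i, a) := by
    intro x i a
    have h : sr (Sum.inl (cL (i, a))) = some (Sum.inl i, a) := hsr (Sum.inl i, a)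
    show (sr (Sum.inl (cL (i, a)))).elim (Classical.arbitrary Ω) x = _
    rw [h]
    rfl
  have hextR : ∀ x i a, ext x (Sum.inr (cR (i, a))) = x (Sum.inr i, a) := by
    intro x i a
    have h : sr (Sum.inr (cR (i, a))) = some (Sum.inr i, a) := hsr (Sum.inr i, a)
    show (sr (Sum.inr (cR (i, a)))).elim (Classical.arbitrary Ω) x = _
    rw [h]
    rfl
  have key : ∀ z : Fin n ⊕ Fin n → Fin t, ∃ (l : Fin R → ℝ) (μ : ℝ)
      (Q : (Fin N ⊕ Fin N → Ω) → ℝ), (∀ j, 0 ≤ l j) ∧ 0 ≤ μ ∧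
      Q ∈ sos (Fin N ⊕ Fin N) (Ω) ∧
      (¬ CertW g s (copyG cL cR src dst π z) → μ = 0 ∧ ∀ j, l j = 0) ∧
      (CertW g s (copyG cL cR src dst π z) →
      ∀ X : Fin N ⊕ Fin N → Ω,
        s - (Game.mk src dst π).satFrac
          (fun i => X (Sum.inl (cL (i, z (Sum.inl i)))))
          (fun i => X (Sum.inr (cR (i, z (Sum.inr i))))) =
          μ + ∑ j, l j * g j X + Q X) := by
    intro z
    by_cases hC : CertW g s (copyG cL cR src dst π z)
    · obtain ⟨l, l0, Q, h1, h2, h3, h4⟩ := dual g hg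
        (fun X => (copyG cL cR src dst π z).satFrac (fun i => X (Sum.inl i))
          (fun i => X (Sum.inr i))) s hC
      exact ⟨l, l0, Q, h1, h2, h3, fun h => absurd hC h, fun _ X => h4 X⟩
    · exact ⟨fun _ => 0, 0, 0, fun _ => le_rfl, le_rfl, (sos _ _).zero_mem,
        fun _ => ⟨rfl, fun _ => rfl⟩, fun h => absurd h hC⟩
  choose l μ Q hl hμ hQ h0 hX using key
  refine ⟨Option (Fin R), inferInstance,
    fun o z => o.elim (μ z) (fun j => l z j),
    fun o x => o.elim 1 (fun j => g j (ext x)), fun z x => Q z (ext x), ?_, ?_, ?_, ?_, ?_, ?_⟩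
  · rw [Fintype.card_option, Fintype.card_fin]
  · rintro (_ | j) z
    · exact hμ z
    · exact hl z j
  · rintro (_ | j) x
    · exact zero_le_one
    · exact hg j _
  · rintro (_ | j) z hz
    · exact (h0 z hz).1
    · exact (h0 z hz).2 j
  · intro z
    exact sos_comp sr (fun _ => Classical.arbitrary Ω) (hQ z)
  · intro z hz x
    have h1 := hX z hz (ext x)
    simp only [hextL, hextR] at h1
    rw [h1, Fintype.sum_option]
    simp only [Option.elim_none, Option.elim_some, mul_one]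

end Pool.Agent.Lib.P325pr
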