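import Pool.Agent.Lib.P325cv.Main
import Pool.Agent.Lib.P325pr.GameQ

/-!
From convex programs with constraints of small dimension and the standard semidefinite constraints
to finitely many nonnegative functions and all squares of functions of degree one.
-/

open scoped BigOperators

namespace Pool.Agent.Lib.P325pr

open Pool.Agent.Lib.P325x (Game)
open Pool.Agent.Lib.P325cv (block core)
open Pool.Agent.Lib.P325av (Certifies)

theorem w_of_convex {N : ℕ} {Ω : Type} [Fintype Ω] [DecidableEq Ω] [Nonempty Ω] (s : ℝ) (hs0 : 0 < s) (hs : s < 1)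
    {Y : Type} [AddCommGroup Y] [Module ℝ Y] (R D : ℕ)
    (A : Fin R → Y →ₗ[ℝ] (Fin D → ℝ)) (C : Fin R → Set (Fin D → ℝ))
    (pt : (Fin N ⊕ Fin N → Ω) → Y) (hC : ∀ j, Convex ℝ (C j))
    (hpt : ∀ z j, A j (pt z) ∈ C j) :
    ∃ (Rl : ℕ) (g : Fin Rl → (Fin N ⊕ Fin N → Ω) → ℝ),
      (Rl : ℝ) ≤ (R : ℝ) * (((⌈2 * ((D : ℝ) + 1) ^ 2 * ((R : ℝ) + 1) /
        (1 / Real.sqrt s - 1)⌉₊ + 1 : ℕ) : ℝ) + 1) ^ (D + 1) ∧
      (∀ j x, 0 ≤ g j x) ∧
      ∀ (ι : Type) [Fintype ι] (I : Game (Fin N) (Fin N) (Ω) ι),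
        Certifies ({y | ∀ j, A j y ∈ C j} ∩ StandardSDP pt) pt s I →
        CertW g (Real.sqrt s) I := by
  classical
  set s1 : ℝ := Real.sqrt s with hs1
  have hs10 : 0 < s1 := Real.sqrt_pos.2 hs0
  have hs11 : s1 < 1 := by
    rw [hs1, Real.sqrt_lt' one_pos]; simpa using hs
  have hs1s : s1 * s1 = s := Real.mul_self_sqrt hs0.le
  set θ : ℝ := 1 / s1 - 1 with hθ
  have hθ0 : 0 < θ := by
    have : 1 < 1 / s1 := by rw [lt_div_iff₀ hs10]; linarith
    linarith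
  set M : ℕ := ⌈2 * ((D : ℝ) + 1) ^ 2 * ((R : ℝ) + 1) / θ⌉₊ + 1 with hMdef
  set η : ℝ := θ / ((R : ℝ) + 1) with hη
  have hR1 : (0 : ℝ) < (R : ℝ) + 1 := by positivity
  have hη0 : 0 < η := div_pos hθ0 hR1
  have hηR : 1 + η * R ≤ 1 / s1 := by
    have : η * R ≤ θ := by
      rw [hη, div_mul_eq_mul_div, div_le_iff₀ hR1]
      nlinarith
    linarith
  have hM1 : 1 ≤ M := by omega
  have hMη : 2 * ((D : ℝ) + 1) ^ 2 ≤ M * η := by
    have h1 : 2 * ((D : ℝ) + 1) ^ 2 * ((R : ℝ) + 1) / θ ≤ M := by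
      rw [hMdef]
      push_cast
      have := Nat.le_ceil (2 * ((D : ℝ) + 1) ^ 2 * ((R : ℝ) + 1) / θ)
      linarith
    have h2 : 2 * ((D : ℝ) + 1) ^ 2 = 2 * ((D : ℝ) + 1) ^ 2 * ((R : ℝ) + 1) / θ * η := by
      rw [hη]
      field_simp
    rw [h2]
    exact mul_le_mul_of_nonneg_right h1 hη0.le
  -- the labelings
  let Z := Fin N ⊕ Fin N → Ω
  have : Nonempty Z := ⟨fun _ => Classical.arbitrary Ω⟩
  have hblock : ∀ j : Fin R, ∃ (m : ℕ) (b : Fin m → Z) (lam : Z → Fin m → ℝ), m ≤ D + 1 ∧ 0 < m ∧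
      (∀ i, lam (b i) = Pi.single i 1) ∧ (∀ z i, |lam z i| ≤ 1) ∧ (∀ z, ∑ i, lam z i = 1) ∧
      ∀ z, A j (pt z) = ∑ i, lam z i • A j (pt (b i)) := fun j => block (fun z => A j (pt z))
  choose m b lam hmD hm0 hb h1 hsum hP using hblock
  -- the inequalities
  let J := Σ j : Fin R, (Fin (m j) → Fin (M + 1))
  have hJ : (Fintype.card J : ℝ) ≤ (R : ℝ) * ((M : ℝ) + 1) ^ (D + 1) := by
    have h2 : Fintype.card J = ∑ j : Fin R, (M + 1) ^ (m j) := by
      simp only [J, Fintype.card_sigma, Fintype.card_pi,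
        Fintype.card_fin, Finset.prod_const, Finset.card_univ]
    rw [h2]
    push_cast
    have h3 : ∑ j : Fin R, ((M : ℝ) + 1) ^ (m j) ≤ ∑ _j : Fin R, ((M : ℝ) + 1) ^ (D + 1) := by
      refine Finset.sum_le_sum fun j _ => ?_
      apply pow_le_pow_right₀ _ (hmD j)
      have : (0 : ℝ) ≤ M := Nat.cast_nonneg _
      linarith
    rw [Finset.sum_const, Finset.card_univ, Fintype.card_fin, nsmul_eq_mul] at h3
    exact h3
  let fu : ∀ j : Fin R, (Fin (m j) → Fin (M + 1)) → Z → ℝ :=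
    fun j u z => ∑ i, ((u i : ℕ) : ℝ) * lam j z i
  have hmax : ∀ (j : Fin R) (u : Fin (m j) → Fin (M + 1)), ∃ z0, ∀ z, fu j u z ≤ fu j u z0 :=
    fun j u => Finite.exists_max (fu j u)
  choose z0 hz0 using hmax
  let gJ : J → Z → ℝ := fun t z => fu t.1 t.2 (z0 t.1 t.2) - fu t.1 t.2 z
  let eJ := Fintype.equivFin J
  refine ⟨Fintype.card J, fun i => gJ (eJ.symm i), hJ,
    fun i x => sub_nonneg.2 (hz0 _ _ x), ?_⟩
  rintro ι _ I ⟨w, w0, hw, hw2⟩ c hcs hcg hcq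
  set sat : Z → ℝ := fun z => I.satFrac
    (fun u => z (Sum.inl u)) (fun u => z (Sum.inr u)) with hsat
  have hsat0 : ∀ z, 0 ≤ sat z := by
    intro z
    rw [hsat]
    unfold Game.satFrac
    exact div_nonneg (Nat.cast_nonneg _) (Nat.cast_nonneg _)
  show ∑ x, c x * sat x ≤ s1
  by_contra hcon
  push Not at hcon
  have hu : ∀ j, ∀ u : Fin (m j) → Fin (M + 1), ∃ z,
      ∑ z', c z' * (∑ i, ((u i : ℕ) : ℝ) * lam j z' i) ≤ ∑ i, ((u i : ℕ) : ℝ) * lam j z i := by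
    intro j u
    refine ⟨z0 j u, ?_⟩
    have h2 := hcg (eJ ⟨j, u⟩)
    simp only [Equiv.symm_apply_apply] at h2
    have h3 : ∑ x, c x * gJ ⟨j, u⟩ x = fu j u (z0 j u) - ∑ x, c x * fu j u x := by
      have h4 : fu j u (z0 j u) = ∑ x, c x * fu j u (z0 j u) := by
        rw [← Finset.sum_mul, hcs, one_mul]
      conv_rhs => rw [h4]
      rw [← Finset.sum_sub_distrib]
      refine Finset.sum_congr rfl fun x _ => ?_
      show c x * (fu j u (z0 j u) - fu j u x) = _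
      ring
    rw [h3] at h2
    exact sub_nonneg.1 h2
  have hMη' : ∀ j, 2 * (m j : ℝ) ^ 2 ≤ M * η := by
    intro j
    refine le_trans ?_ hMη
    have h2 : (m j : ℝ) ≤ (D : ℝ) + 1 := by exact_mod_cast hmD j
    have h3 : (0 : ℝ) ≤ m j := Nat.cast_nonneg _
    have h4 : (m j : ℝ) ^ 2 ≤ ((D : ℝ) + 1) ^ 2 := pow_le_pow_left₀ h3 h2 2
    linarith
  obtain ⟨γ, hγ0, hγs, hγC⟩ := core (fun j z => A j (pt z)) m b lam hm0 hb h1 hsum hP M hM1 η hη0
    hMη' c hcs hu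
  have hpos : (0 : ℝ) < 1 + η * R := by positivity
  set cs : Z → ℝ := fun z => (1 + η * R)⁻¹ * (c z + η * γ z) with hcsdef
  have hcsφ : ∀ φ : Z → ℝ, ∑ z, cs z * φ z =
      (1 + η * R)⁻¹ * (∑ z, c z * φ z + η * ∑ z, γ z * φ z) := by
    intro φ
    rw [hcsdef, Finset.mul_sum, ← Finset.sum_add_distrib, Finset.mul_sum]
    refine Finset.sum_congr rfl fun z _ => ?_
    ring
  have hcs1 : ∑ z, cs z = 1 := by
    rw [hcsdef, ← Finset.mul_sum, Finset.sum_add_distrib, ← Finset.mul_sum, hcs, hγs]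
    exact inv_mul_cancel₀ hpos.ne'
  have haff : ∀ (v : Y →ₗ[ℝ] ℝ) (v0 : ℝ), v (∑ z, cs z • pt z) + v0 =
      ∑ z, cs z * (v (pt z) + v0) := by
    intro v v0
    have h3 : v0 = ∑ z, cs z * v0 := by rw [← Finset.sum_mul, hcs1, one_mul]
    rw [map_sum]
    conv_lhs => rw [h3]
    rw [← Finset.sum_add_distrib]
    refine Finset.sum_congr rfl fun z _ => ?_
    rw [map_smul, smul_eq_mul, ← mul_add]
  have hfeas : (∑ z, cs z • pt z) ∈ {y | ∀ j, A j y ∈ C j} ∩ StandardSDP pt := by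
    constructor
    · intro j
      have h2 : A j (∑ z, cs z • pt z) = ∑ z, cs z • A j (pt z) := by
        rw [map_sum]
        exact Finset.sum_congr rfl fun z _ => by rw [map_smul]
      rw [h2]
      exact hγC j (C j) (hC j) (fun z => hpt z j)
    · intro v v0 a h hv
      rw [haff, Finset.sum_congr rfl (fun z _ => by rw [hv z]),
        hcsφ (fun z => (a + ∑ p, h p (z p)) ^ 2)]
      apply mul_nonneg (inv_nonneg.2 hpos.le)
      have h2 := hcq a h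
      have h3 : 0 ≤ ∑ z, γ z * (a + ∑ p, h p (z p)) ^ 2 :=
        Finset.sum_nonneg fun z _ => mul_nonneg (hγ0 z) (sq_nonneg _)
      have h4 := mul_nonneg hη0.le h3
      linarith
  have hle := hw2 _ hfeas
  rw [haff, Finset.sum_congr rfl (fun z _ => by rw [hw z]), hcsφ sat] at hle
  have h5 : 0 ≤ ∑ z, γ z * sat z := Finset.sum_nonneg fun z _ => mul_nonneg (hγ0 z) (hsat0 z)
  have h6 : s1 ≤ (1 + η * R)⁻¹ := by
    rw [le_inv_comm₀ hs10 hpos, ← one_div]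
    exact hηR
  have h7 : 0 ≤ η * ∑ z, γ z * sat z := mul_nonneg hη0.le h5
  have h8 : s1 * s1 < (1 + η * R)⁻¹ * (∑ z, c z * sat z + η * ∑ z, γ z * sat z) := by
    apply mul_lt_mul' h6 (by linarith) hs10.le (by positivity)
  rw [hs1s] at h8
  linarith

end Pool.Agent.Lib.P325pr
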