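import Pool.Agent.Lib.P325pr.GameQ
import Pool.Agent.Lib.P325pg.RankS

/-!
Finitely many nonnegative functions together with all squares of functions of degree one fail on
almost all relabelings of the copies of a game with a Sherali-Adams solution with positive
semidefinite second moments. Explicit parameters.
-/

open scoped BigOperators

namespace Pool.Agent.Lib.P325pr

open Pool.Agent.Lib.P325x (Game)
open Pool.Agent.Lib.P325h (IsLocalExpectation)
open Pool.Agent.Lib.P325P (es mean)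
open Pool.Agent.Lib.P325av (relabel)
open Pool.Agent.Lib.P325pg (rankS)

theorem lpQ {Ω : Type} [Fintype Ω] [DecidableEq Ω] [Nonempty Ω] (s s1 δ : ℝ) (hs1 : s ≤ 1)
    (hss : s < s1) {n N K r : ℕ} (hr : 2 ≤ r) (hn : 1 ≤ n) (hK1 : 1 ≤ K) (hnK : n * K ≤ N)
    {ι : Type} [Fintype ι] (src dst : ι → Fin n) (π : ι → Equiv.Perm Ω)
    (E : ((Fin n ⊕ Fin n → Ω) → ℝ) →ₗ[ℝ] ℝ)
    (hval : (Game.mk src dst π).value ≤ δ) (hE : IsLocalExpectation r E)
    (hSq : ∀ (c : ℝ) (h : Fin n ⊕ Fin n → Ω → ℝ), 0 ≤ E (fun z => (c + ∑ p, h p (z p)) ^ 2))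
    (hsat : s1 ≤ E (fun z => (Game.mk src dst π).satFrac
        (fun u => z (Sum.inl u)) (fun w => z (Sum.inr w))))
    (τ L b : ℝ) (hτ : 0 < τ)
    (hT : ∀ j : ℕ, r < 2 * j → 1 < τ * Real.sqrt (K : ℝ) ^ j)
    (hL : (r : ℝ) * Real.log (Fintype.card Ω) + Real.log (1 / τ) ≤ L)
    (hX1 : (2 * (n : ℝ)) * (Real.exp 1 * (Fintype.card Ω : ℝ) * Real.sqrt (L + 1) /
        Real.sqrt (Real.sqrt (K : ℝ))) ≤ 1 / 2) (hb0 : 0 ≤ b)
    (hb : ∀ a : ℕ, 2 * a ≤ r → (Fintype.card Ω : ℝ) ^ a *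
        (4 ^ a * ((2 * (n : ℝ)) * (Real.exp 1 * (Fintype.card Ω : ℝ) * Real.sqrt (L + 1) /
          Real.sqrt (Real.sqrt (K : ℝ)))) ^ (r - a)) ≤ b) :
    ∃ (src' dst' : ι → Fin N), (Game.mk src' dst' π).value ≤ δ ∧
      ∀ (R : ℕ) (g : Fin R → (Fin N ⊕ Fin N → Ω) → ℝ), (∀ j x, 0 ≤ g j x) →
        (Nat.card {σ : Equiv.Perm (Fin N) × Equiv.Perm (Fin N) //
          CertW g s (relabel (Game.mk src' dst' π) σ)} : ℝ) ≤
          (((R : ℝ) + 1) * (2 * ((2 * (Fintype.card Ω : ℝ) * (2 * (n : ℝ) + 1)) ^ r * τ) + b) /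
            (s1 - s)) * (N.factorial : ℝ) ^ 2 := by
  have hη : 0 < s1 - s := by linarith
  have hKne : Nonempty (Fin K) := ⟨⟨0, hK1⟩⟩
  let cp : Fin n × Fin K → Fin N := fun p => Fin.castLE hnK (finProdFinEquiv p)
  have hcp : Function.Injective cp :=
    (Fin.castLE_injective hnK).comp finProdFinEquiv.injective
  let z0 : Fin n ⊕ Fin n → Fin K := fun _ => ⟨0, hK1⟩
  refine ⟨fun e => cp (src e, z0 (Sum.inl (src e))),
    fun e => cp (dst e, z0 (Sum.inr (dst e))), copy_value cp src dst π δ hval z0, ?_⟩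
  intro R g hg
  set B : ℝ := 2 * ((2 * (Fintype.card Ω : ℝ) * (2 * (n : ℝ) + 1)) ^ r * τ) + b with hB
  refine perm_avg cp hcp src dst π z0 (fun I => CertW g s I)
    (((R : ℝ) + 1) * B / (s1 - s)) ?_
  intro σ
  classical
  obtain ⟨I, hI, u, v, Q, hcard, hu, hv, h0, hQ, hdec⟩ := gameS (fun p => σ.1 (cp p))
    (fun p => σ.2 (cp p)) (σ.1.injective.comp hcp) (σ.2.injective.comp hcp) s src dst π g hg
  set F : (Fin n ⊕ Fin n → Ω) → ℝ := fun z =>
    s - (Game.mk src dst π).satFrac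
      (fun i => z (Sum.inl i)) (fun i => z (Sum.inr i)) with hF
  have hF1 : ∀ y, F y ≤ 1 := by
    intro y
    have h1 : 0 ≤ (Game.mk src dst π).satFrac
        (fun i => y (Sum.inl i)) (fun i => y (Sum.inr i)) := by
      unfold Game.satFrac
      exact div_nonneg (Nat.cast_nonneg _) (Nat.cast_nonneg _)
    show s - _ ≤ 1
    linarith
  have hFr : ∀ T : Finset (Fin n ⊕ Fin n), r < T.card → ∀ y, es T F y = 0 :=
    fun T hT' y => es_sat src dst π s T (by omega) y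
  have hcardV : (Fintype.card (Fin n ⊕ Fin n) : ℝ) = 2 * (n : ℝ) := by
    rw [Fintype.card_sum, Fintype.card_fin]
    push_cast
    ring
  have hcardK : ((Fintype.card (Fin K) : ℕ) : ℝ) = (K : ℝ) := by
    rw [Fintype.card_fin]
  set G : (Fin n ⊕ Fin n → Fin K) → Prop := fun z =>
    CertW g s (copyG (fun p => σ.1 (cp p)) (fun p => σ.2 (cp p)) src dst π z) with hG
  have key := rankS (by omega) hE hSq F hF1 hFr u v hu hv G h0 Q hQ (fun z hz x => hdec z hz x)
    τ L hτ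
    (by intro j hj; rw [hcardK]; exact hT j hj)
    hL
    (by rw [hcardK, hcardV]; exact hX1) b hb0
    (by intro a ha; rw [hcardK, hcardV]; exact hb a ha)
  rw [hcardV, hcard] at key
  have hEF : E F ≤ s - s1 := by
    have h1 : F = (fun _ => s) - fun z =>
        (Game.mk src dst π).satFrac
          (fun i => z (Sum.inl i)) (fun i => z (Sum.inr i)) := rfl
    have h2 : (fun _ : Fin n ⊕ Fin n → Ω => s) = s • fun _ => (1 : ℝ) := by
      ext z; simp
    rw [h1, map_sub, h2, map_smul, hE.one, smul_eq_mul, mul_one]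
    linarith
  have hB0 : 0 ≤ B := by positivity
  set ρ : ℝ := mean (fun z : Fin n ⊕ Fin n → Fin K => if G z then (1 : ℝ) else 0) with hρ
  have hρ0 : 0 ≤ ρ := by
    rw [hρ]
    unfold mean
    apply div_nonneg _ (Nat.cast_nonneg _)
    refine Finset.sum_nonneg fun z _ => ?_
    split <;> norm_num
  have hcZ : (0 : ℝ) < (Fintype.card (Fin n ⊕ Fin n → Fin K) : ℝ) := by
    exact_mod_cast Fintype.card_pos_iff.2 ⟨z0⟩
  have hρc : (Nat.card {z : Fin n ⊕ Fin n → Fin K // G z} : ℝ) =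
      ρ * (Fintype.card (Fin n ⊕ Fin n → Fin K) : ℝ) := by
    rw [hρ]
    unfold mean
    rw [div_mul_cancel₀ _ hcZ.ne', Finset.sum_boole, Nat.card_eq_fintype_card,
      Fintype.card_subtype]
  rw [hρc]
  refine mul_le_mul_of_nonneg_right ?_ hcZ.le
  rw [le_div_iff₀ hη]
  have h2 : ρ * E F ≤ ρ * (s - s1) := mul_le_mul_of_nonneg_left hEF hρ0
  have h3 : (((R + 1 : ℕ) : ℝ)) = (R : ℝ) + 1 := by push_cast; ring
  rw [h3] at key
  linarith

end Pool.Agent.Lib.P325pr
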