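import Mathlib

/-!
Parameters of the quasi-polynomial bounds: `l` is the logarithm of the number of vertices,
`u ^ (4 * (a + 1)) = l`.
-/

open scoped BigOperators

namespace Pool.Agent.Lib.P325pr

/-- The degree. -/
noncomputable def mm (u : ℝ) : ℕ := ⌈40 * u ^ 2⌉₊

theorem mm_ge (u : ℝ) : 40 * u ^ 2 ≤ mm u := Nat.le_ceil _

theorem mm_le {u : ℝ} (hu : 1 ≤ u) : (mm u : ℝ) ≤ 41 * u ^ 2 := by
  have h1 : (mm u : ℝ) ≤ 40 * u ^ 2 + 1 := (Nat.ceil_lt_add_one (by positivity)).le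
  have h2 : (1 : ℝ) ≤ u ^ 2 := one_le_pow₀ hu
  linarith

theorem le_exp' {y : ℝ} : y ≤ Real.exp y := by
  have := Real.add_one_le_exp y
  linarith

theorem pow_ge {u : ℝ} (hu : 1 ≤ u) (a : ℕ) : u ^ 4 ≤ u ^ (4 * (a + 1)) :=
  pow_le_pow_right₀ hu (by omega)

/-- The number of vertices of the small game. -/
theorem para_n (a : ℕ) (C u : ℝ) (hu : 1 ≤ u) (hC : 16 * |C| * 165 ^ a ≤ u) :
    Real.exp (C * (((4 * mm u : ℕ) : ℝ) + 1) ^ a) ≤ Real.exp (u ^ (4 * (a + 1)) / 64) ^ 4 := by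
  rw [← Real.exp_nat_mul]
  apply Real.exp_le_exp.2
  have h1 : (((4 * mm u : ℕ) : ℝ) + 1) ≤ 165 * u ^ 2 := by
    push_cast
    have h2 := mm_le hu
    have h3 : (1 : ℝ) ≤ u ^ 2 := one_le_pow₀ hu
    linarith
  have h2 : C * (((4 * mm u : ℕ) : ℝ) + 1) ^ a ≤ |C| * (165 * u ^ 2) ^ a := by
    apply mul_le_mul (le_abs_self C) _ (by positivity) (abs_nonneg C)
    exact pow_le_pow_left₀ (by positivity) h1 a
  refine h2.trans ?_
  have h3 : |C| * (165 * u ^ 2) ^ a * 16 = (16 * |C| * 165 ^ a) * u ^ (2 * a) := by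
    rw [mul_pow, ← pow_mul]
    ring
  have h4 : (16 * |C| * 165 ^ a) * u ^ (2 * a) ≤ u * u ^ (2 * a) :=
    mul_le_mul_of_nonneg_right hC (by positivity)
  have h5 : u * u ^ (2 * a) ≤ u ^ (4 * (a + 1)) := by
    rw [← pow_succ']
    exact pow_le_pow_right₀ hu (by omega)
  push_cast
  linarith

theorem para_x (a : ℕ) (q : ℕ) (u : ℝ) (hu : 1 ≤ u) (hq : 64 * (200000 * (q : ℝ) ^ 6) ≤ u) :
    200000 * (q : ℝ) ^ 6 ≤ Real.exp (u ^ (4 * (a + 1)) / 64) := by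
  have h1 : u ≤ u ^ (4 * (a + 1)) := le_self_pow₀ hu (by omega)
  refine le_trans ?_ le_exp'
  rw [le_div_iff₀ (by norm_num)]
  linarith

theorem para_m (a : ℕ) (u : ℝ) (hu : 2624 ≤ u) :
    (mm u : ℝ) ≤ Real.exp (u ^ (4 * (a + 1)) / 64) := by
  have hu1 : 1 ≤ u := by linarith
  refine (mm_le hu1).trans (le_trans ?_ le_exp')
  rw [le_div_iff₀ (by norm_num)]
  have h1 := pow_ge hu1 a
  have h2 : u ^ 4 = u * (u * u ^ 2) := by ring
  have h3 : 2624 * u ^ 2 ≤ u * (u * u ^ 2) := by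
    have h4 : u ^ 2 ≤ u * u ^ 2 := by
      have : 0 ≤ u ^ 2 := by positivity
      nlinarith
    calc 2624 * u ^ 2 ≤ 2624 * (u * u ^ 2) := by linarith
      _ ≤ u * (u * u ^ 2) := mul_le_mul_of_nonneg_right hu (by positivity)
  linarith

/-- The final estimate. -/
theorem para_fin (a : ℕ) (θ η u : ℝ) (hθ : 0 < θ) (hη : 0 < η) (hu : 1 ≤ u)
    (h1 : 16 / θ + 3 ≤ u) (h2 : 10 / η ≤ u) (R D : ℕ)
    (hR : (R : ℝ) ≤ Real.exp (u ^ (4 * (a + 1)) * u)) (hD : (D : ℝ) ≤ u) :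
    ((R : ℝ) * (((⌈2 * ((D : ℝ) + 1) ^ 2 * ((R : ℝ) + 1) / θ⌉₊ + 1 : ℕ) : ℝ) + 1) ^ (D + 1) + 1) *
      (5 * ((Real.exp (u ^ (4 * (a + 1)) / 64) ^ 16)⁻¹) ^ (mm u)) / η ≤
      (Real.exp (u ^ (4 * (a + 1)) * u))⁻¹ := by
  set l : ℝ := u ^ (4 * (a + 1)) with hl
  have hl1 : u ^ 4 ≤ l := pow_ge hu a
  have hl0 : 1 ≤ l := (one_le_pow₀ hu).trans hl1
  have hlu : 1 ≤ l * u := one_le_mul_of_one_le_of_one_le hl0 hu
  set P : ℝ := Real.exp (l * u) with hP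
  have hP1 : 1 ≤ P := Real.one_le_exp (by linarith)
  have hR0 : (0 : ℝ) ≤ R := Nat.cast_nonneg _
  have hD0 : (0 : ℝ) ≤ D := Nat.cast_nonneg _
  -- the size of the net
  have e1 : (((⌈2 * ((D : ℝ) + 1) ^ 2 * ((R : ℝ) + 1) / θ⌉₊ + 1 : ℕ) : ℝ) + 1) ≤ P ^ 2 := by
    have f1 : (⌈2 * ((D : ℝ) + 1) ^ 2 * ((R : ℝ) + 1) / θ⌉₊ : ℝ) ≤
        2 * ((D : ℝ) + 1) ^ 2 * ((R : ℝ) + 1) / θ + 1 :=
      (Nat.ceil_lt_add_one (by positivity)).le
    have f2 : 2 * ((D : ℝ) + 1) ^ 2 * ((R : ℝ) + 1) / θ ≤ 16 * u ^ 2 * P / θ := by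
      apply div_le_div_of_nonneg_right _ hθ.le
      have g1 : ((D : ℝ) + 1) ^ 2 ≤ (2 * u) ^ 2 := pow_le_pow_left₀ (by positivity) (by linarith) 2
      have g2 : (R : ℝ) + 1 ≤ 2 * P := by linarith
      calc 2 * ((D : ℝ) + 1) ^ 2 * ((R : ℝ) + 1) ≤ 2 * (2 * u) ^ 2 * (2 * P) := by
            apply mul_le_mul _ g2 (by positivity) (by positivity)
            linarith
        _ = 16 * u ^ 2 * P := by ring
    have f3 : 16 * u ^ 2 / θ + 3 ≤ P := by
      have g1 : 16 * u ^ 2 / θ + 3 ≤ (16 / θ + 3) * u ^ 2 := by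
        have : (1 : ℝ) ≤ u ^ 2 := one_le_pow₀ hu
        have e : (16 / θ + 3) * u ^ 2 = 16 * u ^ 2 / θ + 3 * u ^ 2 := by ring
        rw [e]
        linarith
      have g2 : (16 / θ + 3) * u ^ 2 ≤ u * u ^ 2 := mul_le_mul_of_nonneg_right h1 (by positivity)
      have g3 : u * u ^ 2 ≤ l * u := by
        have : u * u ^ 2 ≤ u ^ 4 * u := by
          have e : u ^ 4 * u = u ^ 2 * (u * u ^ 2) := by ring
          rw [e]
          exact le_mul_of_one_le_left (by positivity) (one_le_pow₀ hu)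
        exact this.trans (mul_le_mul_of_nonneg_right hl1 (by linarith))
      exact (g1.trans (g2.trans g3)).trans le_exp'
    push_cast
    have f4 : 16 * u ^ 2 * P / θ + 3 ≤ (16 * u ^ 2 / θ + 3) * P := by
      have e : (16 * u ^ 2 / θ + 3) * P = 16 * u ^ 2 * P / θ + 3 * P := by ring
      rw [e]
      linarith
    have f5 : (16 * u ^ 2 / θ + 3) * P ≤ P * P := mul_le_mul_of_nonneg_right f3 (by linarith)
    have f6 : P ^ 2 = P * P := sq P
    linarith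
  have e2 : (((⌈2 * ((D : ℝ) + 1) ^ 2 * ((R : ℝ) + 1) / θ⌉₊ + 1 : ℕ) : ℝ) + 1) ^ (D + 1) ≤
      Real.exp (4 * (l * u ^ 2)) := by
    refine (pow_le_pow_left₀ (by positivity) e1 (D + 1)).trans ?_
    rw [← pow_mul, hP, ← Real.exp_nat_mul]
    apply Real.exp_le_exp.2
    push_cast
    have g1 : 2 * ((D : ℝ) + 1) * (l * u) ≤ 2 * (2 * u) * (l * u) := by
      apply mul_le_mul_of_nonneg_right _ (by linarith)
      linarith
    refine g1.trans (le_of_eq ?_)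
    ring
  have hlu2 : l * u ≤ l * u ^ 2 := by
    apply mul_le_mul_of_nonneg_left _ (by linarith)
    exact le_self_pow₀ hu two_ne_zero
  have e3 : (R : ℝ) * (((⌈2 * ((D : ℝ) + 1) ^ 2 * ((R : ℝ) + 1) / θ⌉₊ + 1 : ℕ) : ℝ) + 1) ^ (D + 1) + 1
      ≤ 2 * Real.exp (5 * (l * u ^ 2)) := by
    have g1 : (R : ℝ) * (((⌈2 * ((D : ℝ) + 1) ^ 2 * ((R : ℝ) + 1) / θ⌉₊ + 1 : ℕ) : ℝ) + 1) ^ (D + 1)
        ≤ P * Real.exp (4 * (l * u ^ 2)) := mul_le_mul hR e2 (by positivity) (by positivity)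
    have g2 : P * Real.exp (4 * (l * u ^ 2)) ≤ Real.exp (5 * (l * u ^ 2)) := by
      rw [hP, ← Real.exp_add]
      apply Real.exp_le_exp.2
      linarith
    have g3 : (1 : ℝ) ≤ Real.exp (5 * (l * u ^ 2)) := Real.one_le_exp (by
      have : 0 ≤ l * u ^ 2 := by positivity
      linarith)
    linarith
  have e4 : ((Real.exp (l / 64) ^ 16)⁻¹) ^ (mm u) ≤ Real.exp (-(10 * (l * u ^ 2))) := by
    rw [← Real.exp_nat_mul, ← Real.exp_neg, ← Real.exp_nat_mul]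
    apply Real.exp_le_exp.2
    have g1 := mm_ge u
    have g2 : l * (40 * u ^ 2) ≤ l * mm u := mul_le_mul_of_nonneg_left g1 (by linarith)
    push_cast
    linarith
  have e5 : 10 / η ≤ Real.exp (l * u ^ 2) := by
    have g1 : u ≤ l * u ^ 2 := by
      have : u ≤ l * u := le_mul_of_one_le_left (by linarith) hl0
      linarith
    exact (h2.trans g1).trans le_exp'
  calc _ ≤ (2 * Real.exp (5 * (l * u ^ 2))) * (5 * Real.exp (-(10 * (l * u ^ 2)))) / η := by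
        apply div_le_div_of_nonneg_right _ hη.le
        apply mul_le_mul e3 _ (by positivity) (by positivity)
        linarith
    _ = (10 / η) * Real.exp (-(5 * (l * u ^ 2))) := by
        have g1 : Real.exp (-(5 * (l * u ^ 2))) =
            Real.exp (5 * (l * u ^ 2)) * Real.exp (-(10 * (l * u ^ 2))) := by
          rw [← Real.exp_add]
          congr 1
          ring
        rw [g1]
        ring
    _ ≤ Real.exp (l * u ^ 2) * Real.exp (-(5 * (l * u ^ 2))) :=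
        mul_le_mul_of_nonneg_right e5 (Real.exp_pos _).le
    _ = Real.exp (-(4 * (l * u ^ 2))) := by
        rw [← Real.exp_add]
        congr 1
        ring
    _ ≤ (Real.exp (l * u))⁻¹ := by
        rw [← Real.exp_neg]
        apply Real.exp_le_exp.2
        have : 0 ≤ l * u ^ 2 := by positivity
        linarith

end Pool.Agent.Lib.P325pr
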