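import Mathlib

/-!
Parameters: a slowly growing number of vertices and a growing degree.
-/

open scoped BigOperators

namespace Pool.Agent.Lib.P325pr

theorem para_log (q : ℕ) (hq : 1 ≤ q) (x : ℝ) (hx : 200000 * (q : ℝ) ^ 6 ≤ x) :
    4 * Real.log q + 64 * Real.log x + 1 ≤ x := by
  have hq' : (1 : ℝ) ≤ q := by exact_mod_cast hq
  have hq6 : (q : ℝ) ≤ (q : ℝ) ^ 6 := le_self_pow₀ hq' (by norm_num)
  have hx1 : 200000 ≤ x := by nlinarith
  have hx0 : 0 < x := by linarith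
  have h1 : Real.log q ≤ q := by
    have := Real.log_le_sub_one_of_pos (by linarith : (0 : ℝ) < q)
    linarith
  have hs0 : 0 < Real.sqrt x := Real.sqrt_pos.2 hx0
  have hs2 : Real.sqrt x * Real.sqrt x = x := Real.mul_self_sqrt hx0.le
  have h2 : Real.log x ≤ 2 * Real.sqrt x := by
    have h3 := Real.log_le_sub_one_of_pos hs0
    have h4 : Real.log x = 2 * Real.log (Real.sqrt x) := by
      conv_lhs => rw [← hs2]
      rw [Real.log_mul hs0.ne' hs0.ne']
      ring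
    linarith
  have h5 : (400 : ℝ) ≤ Real.sqrt x := by
    rw [Real.le_sqrt (by norm_num) hx0.le]
    linarith
  nlinarith

theorem paraQ (q : ℕ) (hq : 1 ≤ q) (x : ℝ) (hx : 200000 * (q : ℝ) ^ 6 ≤ x) (N n m : ℕ)
    (hN : (N : ℝ) = x ^ 64) (hn : 1 ≤ n) (hm : 1 ≤ m) (hnx : (n : ℝ) ≤ x ^ 4) (hmx : (m : ℝ) ≤ x) :
    ∃ (K : ℕ) (τ L b : ℝ), 1 ≤ K ∧ n * K ≤ N ∧ 0 < τ ∧
      (∀ j : ℕ, 4 * m < 2 * j → 1 < τ * Real.sqrt (K : ℝ) ^ j) ∧
      ((4 * m : ℕ) : ℝ) * Real.log q + Real.log (1 / τ) ≤ L ∧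
      (2 * (n : ℝ)) * (Real.exp 1 * (q : ℝ) * Real.sqrt (L + 1) /
        Real.sqrt (Real.sqrt (K : ℝ))) ≤ 1 / 2 ∧ 0 ≤ b ∧
      (∀ a : ℕ, 2 * a ≤ 4 * m → (q : ℝ) ^ a *
        (4 ^ a * ((2 * (n : ℝ)) * (Real.exp 1 * (q : ℝ) * Real.sqrt (L + 1) /
          Real.sqrt (Real.sqrt (K : ℝ)))) ^ (4 * m - a)) ≤ b) ∧
      2 * ((2 * (q : ℝ) * ((2 * (n : ℝ)) + 1)) ^ (4 * m) * τ) + b ≤ 5 * ((x ^ 16)⁻¹) ^ m := by
  have hq' : (1 : ℝ) ≤ q := by exact_mod_cast hq
  have hn' : (1 : ℝ) ≤ n := by exact_mod_cast hn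
  have hm' : (1 : ℝ) ≤ m := by exact_mod_cast hm
  have hq6 : (1 : ℝ) ≤ (q : ℝ) ^ 6 := one_le_pow₀ hq'
  have hx1 : 200000 ≤ x := by nlinarith
  have hx0 : 0 < x := by linarith
  have hxone : 1 ≤ x := by linarith
  have he0 : 0 < Real.exp 1 := Real.exp_pos 1
  have he3 : Real.exp 1 ≤ 3 := by
    have := Real.exp_one_lt_d9
    linarith
  -- the number of copies
  set K : ℕ := N / n with hK
  have hnK : n * K ≤ N := Nat.mul_div_le N n
  have hNn : n ≤ N := by
    have h1 : (n : ℝ) ≤ N := by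
      rw [hN]
      refine hnx.trans (pow_le_pow_right₀ hxone (by norm_num))
    exact_mod_cast h1
  have hK1 : 1 ≤ K := by
    rw [hK, Nat.le_div_iff_mul_le (by omega)]
    omega
  have hK1' : (1 : ℝ) ≤ K := by exact_mod_cast hK1
  have hK0' : (0 : ℝ) < K := by linarith
  have hNK : (N : ℝ) ≤ 2 * n * K := by
    have h1 : N < n * (K + 1) := by
      rw [hK]
      exact Nat.lt_mul_div_succ N (by omega)
    have h2 : (N : ℝ) ≤ n * (K + 1) := by exact_mod_cast h1.le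
    have h3 : (n : ℝ) * (K + 1) ≤ n * (2 * K) :=
      mul_le_mul_of_nonneg_left (by linarith) (by linarith)
    have h4 : (n : ℝ) * (2 * K) = 2 * n * K := by ring
    linarith
  have hKx : x ^ 60 / 2 ≤ K := by
    have h1 : x ^ 64 ≤ 2 * x ^ 4 * K := by
      rw [← hN]
      refine hNK.trans ?_
      have : 2 * (n : ℝ) ≤ 2 * x ^ 4 := by linarith
      exact mul_le_mul_of_nonneg_right this hK0'.le
    have h2 : x ^ 64 = x ^ 4 * x ^ 60 := by ring
    rw [h2] at h1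
    have h3 : 0 < x ^ 4 := by positivity
    have h4 : x ^ 4 * x ^ 60 ≤ x ^ 4 * (2 * K) := by linarith
    have h5 := le_of_mul_le_mul_left h4 h3
    linarith
  have hKN : (K : ℝ) ≤ N := by
    have h1 : K ≤ N := Nat.div_le_self N n
    exact_mod_cast h1
  have hss : x ^ 15 / 2 ≤ Real.sqrt (Real.sqrt (K : ℝ)) := by
    apply Real.le_sqrt_of_sq_le
    apply Real.le_sqrt_of_sq_le
    refine le_trans (le_of_eq ?_) ((by
      have : (0 : ℝ) < x ^ 60 := by positivity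
      linarith : x ^ 60 / 16 ≤ x ^ 60 / 2).trans hKx)
    ring
  have hss0 : 0 < x ^ 15 / 2 := by positivity
  -- the parameters
  set τ : ℝ := 2 / (K : ℝ) ^ m with hτ
  have hτ0 : 0 < τ := by positivity
  set L : ℝ := ((4 * m : ℕ) : ℝ) * Real.log q + Real.log (1 / τ) with hL
  have hlogτ : Real.log (1 / τ) ≤ m * Real.log N := by
    have h1 : 1 / τ ≤ (N : ℝ) ^ m := by
      rw [hτ, one_div_div]
      have h2 : (K : ℝ) ^ m ≤ (N : ℝ) ^ m := pow_le_pow_left₀ hK0'.le hKN m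
      have h3 : (0 : ℝ) ≤ (K : ℝ) ^ m := by positivity
      linarith
    have h2 := Real.log_le_log (by positivity) h1
    rwa [Real.log_pow] at h2
  have hlogN : Real.log N = 64 * Real.log x := by
    rw [hN, Real.log_pow]
    push_cast
    ring
  have hL1 : L + 1 ≤ x ^ 2 := by
    have h1 := para_log q hq x hx
    have h2 : L + 1 ≤ m * (4 * Real.log q + 64 * Real.log x + 1) := by
      rw [hL]
      push_cast
      rw [hlogN] at hlogτ
      nlinarith
    refine h2.trans ?_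
    rw [sq]
    exact mul_le_mul hmx h1 (by
      have := Real.log_natCast_nonneg q
      have := Real.log_nonneg hxone
      positivity) hx0.le
  have hsqL : Real.sqrt (L + 1) ≤ x := by
    rw [← Real.sqrt_sq hx0.le]
    exact Real.sqrt_le_sqrt hL1
  set X : ℝ := (2 * (n : ℝ)) * (Real.exp 1 * (q : ℝ) * Real.sqrt (L + 1) /
      Real.sqrt (Real.sqrt (K : ℝ))) with hXdef
  have hX0 : 0 ≤ X := by positivity
  have hX : X ≤ 12 * q / x ^ 10 := by
    have h1 : Real.exp 1 * (q : ℝ) * Real.sqrt (L + 1) / Real.sqrt (Real.sqrt (K : ℝ)) ≤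
        3 * q * x / (x ^ 15 / 2) := by
      apply div_le_div₀ (by positivity) _ hss0 hss
      apply mul_le_mul _ hsqL (Real.sqrt_nonneg _) (by positivity)
      exact mul_le_mul_of_nonneg_right he3 (by linarith)
    calc X ≤ (2 * x ^ 4) * (3 * q * x / (x ^ 15 / 2)) := by
          apply mul_le_mul _ h1 (by positivity) (by positivity)
          linarith
      _ = 12 * q / x ^ 10 := by
          field_simp
          ring
  have hqq6 : (q : ℝ) ≤ (q : ℝ) ^ 6 := le_self_pow₀ hq' (by norm_num)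
  have hX12 : 12 * (q : ℝ) / x ^ 10 ≤ 1 / 2 := by
    rw [div_le_iff₀ (by positivity)]
    have h1 : x ≤ x ^ 10 := le_self_pow₀ hxone (by norm_num)
    nlinarith
  set b : ℝ := ((4 * (q : ℝ)) ^ 4 * (12 * q / x ^ 10) ^ 2) ^ m with hb
  refine ⟨K, τ, L, b, hK1, hnK, hτ0, ?_, le_rfl, hX.trans hX12, by positivity, ?_, ?_⟩
  · intro j hj
    have hsK : 1 ≤ Real.sqrt (K : ℝ) := by
      rw [Real.one_le_sqrt]
      exact hK1'
    have h1 : (K : ℝ) ^ m ≤ Real.sqrt (K : ℝ) ^ j := by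
      calc (K : ℝ) ^ m = Real.sqrt (K : ℝ) ^ (2 * m) := by
            rw [pow_mul, Real.sq_sqrt hK0'.le]
        _ ≤ _ := pow_le_pow_right₀ hsK (by omega)
    have h2 : (0 : ℝ) < (K : ℝ) ^ m := by positivity
    calc (1 : ℝ) < 2 := by norm_num
      _ = τ * (K : ℝ) ^ m := by rw [hτ]; field_simp
      _ ≤ _ := mul_le_mul_of_nonneg_left h1 hτ0.le
  · intro a ha
    have h1 : X ^ (4 * m - a) ≤ X ^ (2 * m) :=
      pow_le_pow_of_le_one hX0 (by linarith [hX.trans hX12]) (by omega)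
    have h2 : X ^ (2 * m) ≤ (12 * q / x ^ 10) ^ (2 * m) := pow_le_pow_left₀ hX0 hX _
    have h3 : (q : ℝ) ^ a * (4 ^ a * X ^ (4 * m - a)) = (4 * q) ^ a * X ^ (4 * m - a) := by
      rw [mul_pow]
      ring
    have h4 : b = (4 * (q : ℝ)) ^ (4 * m) * (12 * q / x ^ 10) ^ (2 * m) := by
      rw [hb, mul_pow, ← pow_mul, ← pow_mul]
    rw [h3, h4]
    apply mul_le_mul _ (h1.trans h2) (by positivity) (by positivity)
    apply pow_le_pow_right₀ _ (by omega)
    linarith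
  · have h1 : (2 * (q : ℝ) * ((2 * (n : ℝ)) + 1)) ^ (4 * m) * τ ≤ 2 * ((x ^ 16)⁻¹) ^ m := by
      have h2 : (2 * (q : ℝ) * ((2 * (n : ℝ)) + 1)) ^ (4 * m) * τ =
          2 * ((2 * (q : ℝ) * ((2 * (n : ℝ)) + 1)) ^ 4 / K) ^ m := by
        rw [hτ, div_pow, pow_mul]
        ring
      rw [h2]
      apply mul_le_mul_of_nonneg_left _ (by norm_num)
      apply pow_le_pow_left₀ (by positivity)
      rw [div_le_iff₀ hK0', inv_mul_eq_div, le_div_iff₀ (by positivity)]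
      have h3 : (2 * (q : ℝ) * ((2 * (n : ℝ)) + 1)) ^ 4 ≤ (6 * q * x ^ 4) ^ 4 := by
        apply pow_le_pow_left₀ (by positivity)
        have h4 : 2 * (n : ℝ) + 1 ≤ 3 * x ^ 4 := by linarith
        have h5 := mul_le_mul_of_nonneg_left h4 (by positivity : 0 ≤ 2 * (q : ℝ))
        linarith
      have h6 : (6 * (q : ℝ) * x ^ 4) ^ 4 * x ^ 16 ≤ x ^ 60 / 2 := by
        have h7 : (6 * (q : ℝ) * x ^ 4) ^ 4 * x ^ 16 = 1296 * (q : ℝ) ^ 4 * x ^ 32 := by ring
        rw [h7]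
        have h8 : x ^ 60 / 2 = (x ^ 28 / 2) * x ^ 32 := by ring
        rw [h8]
        apply mul_le_mul_of_nonneg_right _ (by positivity)
        have h9 : x ≤ x ^ 28 := le_self_pow₀ hxone (by norm_num)
        have h10 : (q : ℝ) ^ 4 ≤ (q : ℝ) ^ 6 := pow_le_pow_right₀ hq' (by norm_num)
        nlinarith
      have h11 : (0 : ℝ) < x ^ 16 := by positivity
      calc (2 * (q : ℝ) * ((2 * (n : ℝ)) + 1)) ^ 4 * x ^ 16 ≤ (6 * q * x ^ 4) ^ 4 * x ^ 16 :=
            mul_le_mul_of_nonneg_right h3 h11.le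
        _ ≤ _ := h6.trans hKx
    have h2 : b ≤ ((x ^ 16)⁻¹) ^ m := by
      rw [hb]
      apply pow_le_pow_left₀ (by positivity)
      rw [le_inv_comm₀ (by positivity) (by positivity)]
      have h3 : (4 * (q : ℝ)) ^ 4 * (12 * q / x ^ 10) ^ 2 = 36864 * (q : ℝ) ^ 6 / x ^ 20 := by
        field_simp
        ring
      rw [h3, inv_div, le_div_iff₀ (by positivity)]
      have h4 : x ^ 20 = x ^ 16 * x ^ 4 := by ring
      rw [h4]
      apply mul_le_mul_of_nonneg_left _ (by positivity)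
      have h5 : x ≤ x ^ 4 := le_self_pow₀ hxone (by norm_num)
      linarith
    linarith

end Pool.Agent.Lib.P325pr
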