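import Pool.Agent.Lib.P325pr.ConvQ
import Pool.Agent.Lib.P325pr.LPQ
import Pool.Agent.Lib.P325pr.ParaQ
import Pool.Agent.Lib.P325pr.ParaM

/-!
Convex programs of quasi-polynomial size on top of the standard semidefinite relaxation, from
Sherali-Adams solutions with positive semidefinite second moments for games that are not much
larger than the degree.
-/

open scoped BigOperators

namespace Pool.Agent.Lib.P325pr

open Pool.Agent.Lib.P325x (Game)
open Pool.Agent.Lib.P325h (IsLocalExpectation)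
open Pool.Agent.Lib.P325av (Certifies relabel)

/-- Sherali-Adams solutions of every degree `r` with positive semidefinite second moments and
objective at least `1 - ε` for games of value at most `δ` with `2 ^ m` labels and at most
`exp (C * (r + 1) ^ a)` vertices. -/
def BaseQ : Prop := ∀ ε δ : ℝ, 0 < ε → 0 < δ → ∃ (m a : ℕ) (C : ℝ), ∀ r : ℕ,
    ∃ (n : ℕ) (ι : Type) (_ : Fintype ι) (src dst : ι → Fin n) (b : ι → (Fin m → ZMod 2))
      (E : ((Fin n ⊕ Fin n → (Fin m → ZMod 2)) → ℝ) →ₗ[ℝ] ℝ), Nonempty ι ∧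
      (Game.mk src dst (fun e => Equiv.addRight (b e))).value ≤ δ ∧
      IsLocalExpectation r E ∧
      (∀ (c : ℝ) (h : Fin n ⊕ Fin n → (Fin m → ZMod 2) → ℝ),
        0 ≤ E (fun z => (c + ∑ p, h p (z p)) ^ 2)) ∧
      1 - ε ≤ E (fun z => (Game.mk src dst (fun e => Equiv.addRight (b e))).satFrac
        (fun u => z (Sum.inl u)) (fun w => z (Sum.inr w))) ∧
      (n : ℝ) ≤ Real.exp (C * ((r : ℝ) + 1) ^ a)

theorem mainQ (hB : BaseQ) (ε δ : ℝ) (hε : 0 < ε) (hδ : 0 < δ) :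
    ∃ (m : ℕ) (c : ℝ), 0 < c ∧ ∃ N0 : ℕ, ∀ N ≥ N0,
      ∃ (ι : Type) (_ : Fintype ι) (src dst : ι → Fin N) (b : ι → (Fin m → ZMod 2)), Nonempty ι ∧
      (Game.mk src dst (fun e => Equiv.addRight (b e))).value ≤ δ ∧
      ∀ (Y : Type) [AddCommGroup Y] [Module ℝ Y] (R D : ℕ)
        (A : Fin R → Y →ₗ[ℝ] (Fin D → ℝ)) (K : Fin R → Set (Fin D → ℝ))
        (pt : (Fin N ⊕ Fin N → (Fin m → ZMod 2)) → Y),
        (R : ℝ) ≤ Real.exp (Real.log N ^ (1 + c)) → (D : ℝ) ≤ Real.log N ^ c →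
        (∀ j, Convex ℝ (K j)) → (∀ z j, A j (pt z) ∈ K j) →
        (Nat.card {g : Equiv.Perm (Fin N) × Equiv.Perm (Fin N) //
          Certifies ({y | ∀ j, A j y ∈ K j} ∩ StandardSDP pt) pt (1 - ε)
            (relabel (Game.mk src dst (fun e => Equiv.addRight (b e))) g)} : ℝ) ≤
          (N.factorial : ℝ) ^ 2 / Real.exp (Real.log N ^ (1 + c)) := by
  -- the intermediate values
  set s : ℝ := 1 - min ε (1 / 2) with hs
  have hs2 : 1 / 2 ≤ s := by
    have := min_le_right ε (1 / 2)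
    linarith
  have hs1 : s < 1 := by
    have : 0 < min ε (1 / 2) := lt_min hε (by norm_num)
    linarith
  have hsε : 1 - ε ≤ s := by
    have := min_le_left ε (1 / 2)
    linarith
  have hs0 : 0 < s := by linarith
  have hr0 : 0 < Real.sqrt s := Real.sqrt_pos.2 hs0
  have hr1 : Real.sqrt s < 1 := by
    rw [Real.sqrt_lt' one_pos]
    linarith
  have hq1 : Real.sqrt (Real.sqrt s) < 1 := by
    rw [Real.sqrt_lt' one_pos]
    linarith
  have hqr : Real.sqrt s < Real.sqrt (Real.sqrt s) := by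
    rw [Real.lt_sqrt hr0.le]
    nlinarith
  obtain ⟨m, a, C, hbase⟩ := hB (1 - Real.sqrt (Real.sqrt s)) δ (by linarith) hδ
  have hθ0 : 0 < 1 / Real.sqrt s - 1 := by
    have : 1 < 1 / Real.sqrt s := by rw [lt_div_iff₀ hr0]; linarith
    linarith
  set θ : ℝ := 1 / Real.sqrt s - 1 with hθ
  set η : ℝ := Real.sqrt (Real.sqrt s) - Real.sqrt s with hη
  have hη0 : 0 < η := by linarith
  set q : ℕ := Fintype.card (Fin m → ZMod 2) with hq
  have hq0 : 1 ≤ q := Fintype.card_pos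
  have ha0 : (0 : ℝ) < 4 * ((a : ℝ) + 1) := by positivity
  set c : ℝ := (4 * ((a : ℝ) + 1))⁻¹ with hc
  have hc0 : 0 < c := inv_pos.2 ha0
  set u0 : ℝ := 16 * |C| * 165 ^ a + 64 * (200000 * (q : ℝ) ^ 6) + 2624 + (16 / θ + 3) + 10 / η
    with hu0
  refine ⟨m, c, hc0, ⌈Real.exp (u0 ^ (4 * (a + 1)))⌉₊, fun N hN => ?_⟩
  have hp1 : 0 ≤ 16 * |C| * 165 ^ a := by positivity
  have hp2 : 0 ≤ 64 * (200000 * (q : ℝ) ^ 6) := by positivity
  have hp3 : 0 ≤ 16 / θ + 3 := by positivity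
  have hp4 : 0 ≤ 10 / η := by positivity
  have hu00 : 0 ≤ u0 := by linarith
  have hNe : Real.exp (u0 ^ (4 * (a + 1))) ≤ N :=
    (Nat.le_ceil _).trans (by exact_mod_cast hN)
  have hN0 : (0 : ℝ) < N := lt_of_lt_of_le (Real.exp_pos _) hNe
  set l : ℝ := Real.log N with hl
  have hNl : (N : ℝ) = Real.exp l := (Real.exp_log hN0).symm
  have hl0 : u0 ^ (4 * (a + 1)) ≤ l := by
    rw [hl, Real.le_log_iff_exp_le hN0]
    exact hNe
  have hl00 : 0 ≤ l := (pow_nonneg hu00 _).trans hl0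
  set u : ℝ := l ^ c with hu
  have hu' : 0 ≤ u := Real.rpow_nonneg hl00 c
  have hul : u ^ (4 * (a + 1)) = l := by
    rw [hu, ← Real.rpow_natCast, ← Real.rpow_mul hl00]
    have : c * ((4 * (a + 1) : ℕ) : ℝ) = 1 := by
      rw [hc]
      push_cast
      exact inv_mul_cancel₀ ha0.ne'
    rw [this, Real.rpow_one]
  have huu : u0 ≤ u := by
    have h1 : u0 ^ (4 * (a + 1)) ≤ u ^ (4 * (a + 1)) := by rw [hul]; exact hl0
    exact le_of_pow_le_pow_left₀ (by omega) hu' h1
  have hu1 : 1 ≤ u := by linarith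
  have hlpos : 0 < l := by
    rw [← hul]
    positivity
  have hlc : l ^ (1 + c) = u ^ (4 * (a + 1)) * u := by
    rw [Real.rpow_add hlpos, Real.rpow_one, hul]
  rw [hlc]
  -- the small game
  obtain ⟨n, ι, i1, src, dst, b, E, hne, hval, hE, hSq, hsat, hnC⟩ := hbase (4 * mm u)
  have hn1 : 1 ≤ n := by
    obtain ⟨e⟩ := hne
    have := (src e).2
    omega
  set x : ℝ := Real.exp (u ^ (4 * (a + 1)) / 64) with hx
  have hmm1 : 1 ≤ mm u := by
    have h1 := mm_ge u
    have h2 : (1 : ℝ) ≤ u ^ 2 := one_le_pow₀ hu1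
    have h3 : (0 : ℝ) < mm u := by linarith
    exact_mod_cast h3
  have hNx : (N : ℝ) = x ^ 64 := by
    rw [hNl, hx, ← Real.exp_nat_mul, hul]
    congr 1
    push_cast
    ring
  obtain ⟨K, τ, L, bb, hK1, hnK, hτ, hT, hL, hX1, hb0, hb, hfin⟩ := paraQ q hq0 x
    (para_x a q u hu1 (by linarith)) N n (mm u) hNx hn1 hmm1
    (hnC.trans (para_n a C u hu1 (by linarith))) (para_m a u (by linarith))
  obtain ⟨src', dst', hval', hall⟩ := lpQ (Real.sqrt s) (Real.sqrt (Real.sqrt s)) δ hr1.le hqr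
    (by omega : 2 ≤ 4 * mm u) hn1 hK1 hnK src dst (fun e => Equiv.addRight (b e)) E hval hE hSq
    (by linarith) τ L bb hτ hT hL hX1 hb0 hb
  refine ⟨ι, i1, src', dst', b, hne, hval', fun Y _ _ R D A K' pt hR hD hK hpt => ?_⟩
  obtain ⟨Rl, g, hRl, hg, himp⟩ := w_of_convex s hs0 hs1 R D A K' pt hK hpt
  have h1 := hall Rl g hg
  have h2 : (Nat.card {g : Equiv.Perm (Fin N) × Equiv.Perm (Fin N) //
          Certifies ({y | ∀ j, A j y ∈ K' j} ∩ StandardSDP pt) pt (1 - ε)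
            (relabel (Game.mk src' dst' (fun e => Equiv.addRight (b e))) g)} : ℝ) ≤
      (Nat.card {σ : Equiv.Perm (Fin N) × Equiv.Perm (Fin N) //
          CertW g (Real.sqrt s)
            (relabel (Game.mk src' dst' (fun e => Equiv.addRight (b e))) σ)} : ℝ) := by
    have hc : ∀ (I : Game (Fin N) (Fin N) (Fin m → ZMod 2) ι),
        Certifies ({y | ∀ j, A j y ∈ K' j} ∩ StandardSDP pt) pt (1 - ε) I →
        CertW g (Real.sqrt s) I := by
      rintro I ⟨w, w0, hw1, hw2⟩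
      exact himp ι I ⟨w, w0, hw1, fun y hy => (hw2 y hy).trans hsε⟩
    have h3 := Nat.card_le_card_of_injective
      (fun x : {g : Equiv.Perm (Fin N) × Equiv.Perm (Fin N) //
          Certifies ({y | ∀ j, A j y ∈ K' j} ∩ StandardSDP pt) pt (1 - ε)
            (relabel (Game.mk src' dst' (fun e => Equiv.addRight (b e))) g)} =>
        (⟨x.1, hc _ x.2⟩ : {σ : Equiv.Perm (Fin N) × Equiv.Perm (Fin N) //
          CertW g (Real.sqrt s)
            (relabel (Game.mk src' dst' (fun e => Equiv.addRight (b e))) σ)}))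
      (fun x y h => Subtype.ext (by
        have h4 := congrArg Subtype.val h
        exact h4))
    exact_mod_cast h3
  refine h2.trans (h1.trans ?_)
  rw [div_eq_inv_mul ((N.factorial : ℝ) ^ 2)]
  refine mul_le_mul_of_nonneg_right ?_ (by positivity)
  have h5 := para_fin a θ η u hθ0 hη0 hu1 (by linarith) (by linarith) R D hR hD
  refine le_trans ?_ h5
  apply div_le_div_of_nonneg_right _ hη0.le
  have hRl0 : (0 : ℝ) ≤ Rl := Nat.cast_nonneg _
  apply mul_le_mul _ hfin (by positivity) (by positivity)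
  linarith

end Pool.Agent.Lib.P325pr
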